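import Pool.Agent.OMF.Stmts

set_option autoImplicit false

namespace Pool.Agent.OMF.H21

open Finset Pool.Agent.GTO Pool.Agent.OMF

theorem fin3_third : ∀ j1 j2 : Fin 3, j1 ≠ j2 → ∃ j3 : Fin 3, ∀ j, j = j1 ∨ j = j2 ∨ j = j3 := by
  decide

theorem fin3_cover : ∀ s p q j : Fin 3, p ≠ s → q ≠ s → p ≠ q → j = s ∨ j = p ∨ j = q := by
  decide

theorem fin3_eq : ∀ o x y z : Fin 3, o ≠ x → o ≠ y → x ≠ y → o ≠ z → x ≠ z → z = y := by
  intro o x y z h1 h2 h3 h4 h5
  omega

open scoped Classical

theorem ip_comb (w u v : V) (s t : ℝ) : ip w (s • u + t • v) = s * ip w u + t * ip w v := by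
  simp [ip]
  ring

/-- the zero set of a linear form with two points is their line -/
theorem mem_iff (hB : BasStmt) {ι : Type} [Fintype ι] (a : ι → V) (hP : PI a) (w : V)
    (hw : w ≠ 0) (x y : ι) (hxy : x ≠ y) (hx : ip w (a x) = 0) (hy : ip w (a y) = 0) (k : ι) :
    ip w (a k) = 0 ↔ k ∈ ln a x y := by
  obtain ⟨-, b2, -, b4, -, -⟩ := hB
  have hc := hP x y hxy
  constructor
  · intro hk
    by_contra hcon
    have hd : dt (a x) (a y) (a k) ≠ 0 := by
      intro h
      exact hcon (by simp [ln, h])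
    have h := b2 (a x) (a y) (a k) w
    have h1 : ip w (dt (a x) (a y) (a k) • w) = 0 := by
      rw [h]
      have e : ∀ r1 r2 r3 : ℝ, ip w (r1 • a x + r2 • a y + r3 • a k) =
          r1 * ip w (a x) + r2 * ip w (a y) + r3 * ip w (a k) := by
        intro r1 r2 r3
        simp [ip]
        ring
      rw [e, hx, hy, hk]
      ring
    have h2 : ip w (dt (a x) (a y) (a k) • w) = dt (a x) (a y) (a k) * ip w w := by
      simp [ip]
      ring
    rw [h2] at h1
    have h3 : ip w w = 0 := (mul_eq_zero.1 h1).resolve_left hd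
    apply hw
    have h4 : w 0 * w 0 + w 1 * w 1 + w 2 * w 2 = 0 := h3
    have e0 := mul_self_nonneg (w 0)
    have e1 := mul_self_nonneg (w 1)
    have e2 := mul_self_nonneg (w 2)
    funext i
    fin_cases i
    · exact mul_self_eq_zero.1 (by simpa using (by linarith : w 0 * w 0 = 0))
    · exact mul_self_eq_zero.1 (by simpa using (by linarith : w 1 * w 1 = 0))
    · exact mul_self_eq_zero.1 (by simpa using (by linarith : w 2 * w 2 = 0))
  · intro hk
    have hk' : dt (a x) (a y) (a k) = 0 := by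
      simpa [ln] using hk
    obtain ⟨s, t, hst⟩ := (b4 _ _ _ hc).1 hk'
    rw [hst, ip_comb, hx, hy]
    ring

/-- the points of the configuration on the line -/
noncomputable def SS {ι : Type} [Fintype ι] (a : ι → V) (w : V) : Finset ι :=
  univ.filter fun i => ip w (a i) = 0

theorem mem_SS {ι : Type} [Fintype ι] (a : ι → V) (w : V) (i : ι) :
    i ∈ SS a w ↔ ip w (a i) = 0 := by simp [SS]

theorem card_of_two (hB : BasStmt) {ι : Type} [Fintype ι] (a : ι → V) (hP : PI a) (w : V)
    (hw : w ≠ 0) (x y z : ι) (hT : Tri a x y z) (p q : ι) (hp : p ∈ ({x, y, z} : Finset ι))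
    (hq : q ∈ ({x, y, z} : Finset ι)) (hpq : p ≠ q) (h1 : p ∈ SS a w) (h2 : q ∈ SS a w) :
    (SS a w).card ≤ 3 := by
  obtain ⟨-, -, -, -, -, b6⟩ := id hB
  obtain ⟨hxy, hyz, hzx, hl⟩ := hT
  have e1 : SS a w = ln a p q := by
    ext k
    rw [mem_SS]
    exact mem_iff hB a hP w hw p q hpq ((mem_SS _ _ _).1 h1) ((mem_SS _ _ _).1 h2) k
  have e2 : ln a p q = ln a x y := by
    apply (b6 ι a hP).1 x y p q hxy hpq
    · rw [hl]; exact hp
    · rw [hl]; exact hq
  rw [e1, e2, hl]
  exact card_le_three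

theorem pick {ι : Type} (W : Finset ι) (K : ℕ) (X Y : ℕ → ι)
    (hX : ∀ i < K, ∀ j < K, X i ≠ Y j ∧ (i ≠ j → X i ≠ X j ∧ Y i ≠ Y j)) (hW : W.card < K) :
    ∃ i < K, X i ∉ W ∧ Y i ∉ W := by
  by_contra hcon
  push_neg at hcon
  let f : ℕ → ι := fun i => if X i ∈ W then X i else Y i
  have hf : ∀ i ∈ range K, f i ∈ W := by
    intro i hi
    rw [mem_range] at hi
    by_cases h : X i ∈ W
    · simp only [f, h, if_true]
    · simp only [f, h, if_false]
      exact hcon i hi h
  have hinj : Set.InjOn f (range K : Set ℕ) := by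
    intro i hi j hj hij
    rw [coe_range, Set.mem_Iio] at hi hj
    by_contra hne
    have h1 := (hX i hi j hj).2 hne
    have h2 := (hX i hi j hj).1
    have h3 := (hX j hj i hi).1
    simp only [f] at hij
    split_ifs at hij
    · exact h1.1 hij
    · exact h2 hij
    · exact h3 hij.symm
    · exact h1.2 hij
  have := card_le_card_of_injOn f hf hinj
  rw [card_range] at this
  omega

theorem cover {ι : Type} (W : Finset ι) (K : ℕ) (X Y : ℕ → ι)
    (hX : ∀ i < K, ∀ j < K, X i ≠ Y j ∧ (i ≠ j → X i ≠ X j ∧ Y i ≠ Y j))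
    (hW : ∀ i < K, X i ∈ W ∧ Y i ∈ W) : 2 * K ≤ W.card := by
  have h1 : ((range K).image X ∪ (range K).image Y) ⊆ W := by
    intro z hz
    rw [mem_union, mem_image, mem_image] at hz
    rcases hz with ⟨i, hi, rfl⟩ | ⟨i, hi, rfl⟩
    · exact (hW i (mem_range.1 hi)).1
    · exact (hW i (mem_range.1 hi)).2
  have h2 : Disjoint ((range K).image X) ((range K).image Y) := by
    rw [disjoint_left]
    intro z hz hz'
    rw [mem_image] at hz hz'
    obtain ⟨i, hi, rfl⟩ := hz
    obtain ⟨j, hj, hj'⟩ := hz'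
    exact (hX i (mem_range.1 hi) j (mem_range.1 hj)).1 hj'.symm
  have h3 := card_le_card h1
  rw [card_union_of_disjoint h2, card_image_of_injOn, card_image_of_injOn, card_range] at h3
  · omega
  · intro i hi j hj hij
    rw [coe_range, Set.mem_Iio] at hi hj
    by_contra hne
    exact ((hX i hi j hj).2 hne).2 hij
  · intro i hi j hj hij
    rw [coe_range, Set.mem_Iio] at hi hj
    by_contra hne
    exact ((hX i hi j hj).2 hne).1 hij

theorem ty2 (hB : BasStmt) : Ty2Stmt := by
  intro ι _ a hP N O Gm G1 G2 A B w hR hN hw hG hAB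
  obtain ⟨r0, r1, rm, r2, rd, rn, rA, rG⟩ := hR
  have two : ∀ j x y z, Tri a x y z → ∀ p ∈ ({x, y, z} : Finset ι), ∀ q ∈ ({x, y, z} : Finset ι),
      p ≠ q → p ∈ SS a (w j) → q ∈ SS a (w j) → (SS a (w j)).card ≤ 3 :=
    fun j x y z hT p hp q hq hpq h1 h2 =>
      card_of_two hB a hP (w j) (hw j) x y z hT p q hp hq hpq h1 h2
  have cA : ∀ i ≤ N + 1, ∃ j, A i ∈ SS a (w j) := fun i hi => by
    obtain ⟨j, hj⟩ := (hAB i hi).1
    exact ⟨j, (mem_SS _ _ _).2 hj⟩
  have cB : ∀ i ≤ N + 1, ∃ j, B i ∈ SS a (w j) := fun i hi => by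
    obtain ⟨j, hj⟩ := (hAB i hi).2
    exact ⟨j, (mem_SS _ _ _).2 hj⟩
  have cG : ∀ i ∈ [O, Gm, G1, G2], ∃ j, i ∈ SS a (w j) := fun i hi => by
    obtain ⟨j, hj⟩ := hG i hi
    exact ⟨j, (mem_SS _ _ _).2 hj⟩
  have dist : ∀ i < N + 2, ∀ j < N + 2, A i ≠ B j ∧ (i ≠ j → A i ≠ A j ∧ B i ≠ B j) :=
    fun i hi j hj => rd i (by omega) j (by omega)
  -- at most one small colour
  have small1 : ∀ j1 j2 : Fin 3, j1 ≠ j2 → (SS a (w j1)).card ≤ 3 → (SS a (w j2)).card ≤ 3 →
      False := by
    intro j1 j2 h12 s1 s2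
    obtain ⟨j3, h3⟩ := fin3_third j1 j2 h12
    obtain ⟨i, hi, hA, hBi⟩ := pick (SS a (w j1) ∪ SS a (w j2)) (N + 2) A B dist (by
      have := card_union_le (SS a (w j1)) (SS a (w j2))
      omega)
    rw [mem_union, not_or] at hA hBi
    obtain ⟨p, hp⟩ := cA i (by omega)
    obtain ⟨q, hq⟩ := cB i (by omega)
    have hp3 : p = j3 := by
      rcases h3 p with h | h | h
      · exact absurd (h ▸ hp) hA.1
      · exact absurd (h ▸ hp) hA.2
      · exact h
    have hq3 : q = j3 := by
      rcases h3 q with h | h | h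
      · exact absurd (h ▸ hq) hBi.1
      · exact absurd (h ▸ hq) hBi.2
      · exact h
    subst hp3
    rw [hq3] at hq
    have s3 := two p O (A i) (B i) (r0 i (by omega)) (A i) (by simp) (B i) (by simp)
      (rd i (by omega) i (by omega)).1 hp hq
    have h5 := cover (SS a (w j1) ∪ (SS a (w j2) ∪ SS a (w p))) (N + 2) A B dist (by
      intro k hk
      obtain ⟨u, hu⟩ := cA k (by omega)
      obtain ⟨v, hv⟩ := cB k (by omega)
      constructor
      · rw [mem_union, mem_union]
        rcases h3 u with h | h | h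
        · exact Or.inl (h ▸ hu)
        · exact Or.inr (Or.inl (h ▸ hu))
        · exact Or.inr (Or.inr (h ▸ hu))
      · rw [mem_union, mem_union]
        rcases h3 v with h | h | h
        · exact Or.inl (h ▸ hv)
        · exact Or.inr (Or.inl (h ▸ hv))
        · exact Or.inr (Or.inr (h ▸ hv)))
    have e1 := card_union_le (SS a (w j1)) (SS a (w j2) ∪ SS a (w p))
    have e2 := card_union_le (SS a (w j2)) (SS a (w p))
    omega
  by_cases hs : ∃ s, (SS a (w s)).card ≤ 3
  · exfalso
    obtain ⟨s, hs⟩ := hs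
    have big : ∀ j, j ≠ s → ¬ (SS a (w j)).card ≤ 3 := fun j hj h => small1 j s hj h hs
    -- every row point is on the small line
    have row : ∀ (g : ι) (K : ℕ) (X Y : ℕ → ι), 4 ≤ K → (∃ j, g ∈ SS a (w j)) →
        (∀ i < K, Tri a g (X i) (Y i)) →
        (∀ i < K, ∀ j < K, X i ≠ Y j ∧ (i ≠ j → X i ≠ X j ∧ Y i ≠ Y j)) →
        (∀ i < K, (∃ j, X i ∈ SS a (w j)) ∧ ∃ j, Y i ∈ SS a (w j)) → g ∈ SS a (w s) := by
      intro g K X Y hK hg hT hd hc
      obtain ⟨i, hi, hX, hY⟩ := pick (SS a (w s)) K X Y hd (by omega)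
      obtain ⟨⟨p, hp⟩, q, hq⟩ := hc i hi
      obtain ⟨j, hj⟩ := hg
      have hps : p ≠ s := fun h => hX (h ▸ hp)
      have hqs : q ≠ s := fun h => hY (h ▸ hq)
      have hpq : p ≠ q := by
        intro h
        rw [h] at hp
        exact big q hqs (two q g (X i) (Y i) (hT i hi) (X i) (by simp) (Y i) (by simp)
          (hd i hi i hi).1 hp hq)
      have hjs : j = s ∨ j = p ∨ j = q := fin3_cover s p q j hps hqs hpq
      rcases hjs with h | h | h
      · exact h ▸ hj
      · rw [h] at hj
        exact absurd (two p g (X i) (Y i) (hT i hi) g (by simp) (X i) (by simp)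
          (hT i hi).1 hj hp) (big p hps)
      · rw [h] at hj
        exact absurd (two q g (X i) (Y i) (hT i hi) g (by simp) (Y i) (by simp)
          (hT i hi).2.2.1.symm hj hq) (big q hqs)
    have hO := row O (N + 2) A B (by omega) (cG O (by simp)) (fun i hi => r0 i (by omega)) dist
      (fun i hi => ⟨cA i (by omega), cB i (by omega)⟩)
    have hG1 := row G1 (N + 1) A (fun i => B (i + 1)) (by omega) (cG G1 (by simp))
      (fun i hi => r1 i (by omega))
      (fun i hi j hj => ⟨(rd i (by omega) (j + 1) (by omega)).1, fun h =>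
        ⟨((rd i (by omega) j (by omega)).2 h).1,
          ((rd (i + 1) (by omega) (j + 1) (by omega)).2 (by omega)).2⟩⟩)
      (fun i hi => ⟨cA i (by omega), cB (i + 1) (by omega)⟩)
    have hGm := row Gm (N + 1) (fun i => A (i + 1)) B (by omega) (cG Gm (by simp))
      (fun i hi => rm i (by omega))
      (fun i hi j hj => ⟨(rd (i + 1) (by omega) j (by omega)).1, fun h =>
        ⟨((rd (i + 1) (by omega) (j + 1) (by omega)).2 (by omega)).1,
          ((rd i (by omega) j (by omega)).2 h).2⟩⟩)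
      (fun i hi => ⟨cA (i + 1) (by omega), cB i (by omega)⟩)
    have hG2 := row G2 N A (fun i => B (i + 2)) (by omega) (cG G2 (by simp))
      (fun i hi => r2 i (by omega))
      (fun i hi j hj => ⟨(rd i (by omega) (j + 2) (by omega)).1, fun h =>
        ⟨((rd i (by omega) j (by omega)).2 h).1,
          ((rd (i + 2) (by omega) (j + 2) (by omega)).2 (by omega)).2⟩⟩)
      (fun i hi => ⟨cA i (by omega), cB (i + 2) (by omega)⟩)
    have hsub : [O, Gm, G1, G2].toFinset ⊆ SS a (w s) := by
      intro z hz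
      simp only [List.mem_toFinset, List.mem_cons, List.not_mem_nil, or_false] at hz
      rcases hz with rfl | rfl | rfl | rfl
      · exact hO
      · exact hGm
      · exact hG1
      · exact hG2
    have h4 := card_le_card hsub
    rw [List.toFinset_card_of_nodup rn] at h4
    simp at h4
    omega
  · push_neg at hs
    have one : ∀ j x y z, Tri a x y z → ∀ p ∈ ({x, y, z} : Finset ι),
        ∀ q ∈ ({x, y, z} : Finset ι), p ≠ q → p ∈ SS a (w j) → q ∈ SS a (w j) → False :=
      fun j x y z hT p hp q hq hpq h1 h2 => by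
        have := two j x y z hT p hp q hq hpq h1 h2
        have := hs j
        omega
    choose ca hca using cA
    choose cb hcb using cB
    obtain ⟨o, ho⟩ := cG O (by simp)
    -- three different colours on every `Tri` line
    have t0 : ∀ i (hi : i ≤ N + 1), o ≠ ca i hi ∧ o ≠ cb i hi ∧ ca i hi ≠ cb i hi := by
      intro i hi
      obtain ⟨n1, n2, n3, -⟩ := id (r0 i hi)
      refine ⟨fun h => ?_, fun h => ?_, fun h => ?_⟩
      · exact one o O (A i) (B i) (r0 i hi) O (by simp) (A i) (by simp) n1 ho (h ▸ hca i hi)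
      · exact one o O (A i) (B i) (r0 i hi) O (by simp) (B i) (by simp) n3.symm ho
          (h ▸ hcb i hi)
      · have h1 := hca i hi
        rw [h] at h1
        exact one _ O (A i) (B i) (r0 i hi) (A i) (by simp) (B i) (by simp) n2 h1 (hcb i hi)
    have t1 : ∀ i (hi : i ≤ N), ca i (by omega) ≠ cb (i + 1) (by omega) := by
      intro i hi h
      obtain ⟨n1, n2, n3, -⟩ := id (r1 i hi)
      have h1 := hca i (by omega)
      rw [h] at h1
      exact one _ G1 (A i) (B (i + 1)) (r1 i hi) (A i) (by simp) (B (i + 1)) (by simp) n2 h1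
        (hcb (i + 1) (by omega))
    have d3 := fin3_eq
    have stepB : ∀ i (hi : i ≤ N), cb (i + 1) (by omega) = cb i (by omega) := by
      intro i hi
      exact d3 o (ca i (by omega)) (cb i (by omega)) _ (t0 i (by omega)).1 (t0 i (by omega)).2.1
        (t0 i (by omega)).2.2 (t0 (i + 1) (by omega)).2.1 (t1 i hi)
    have stepA : ∀ i (hi : i ≤ N), ca (i + 1) (by omega) = ca i (by omega) := by
      intro i hi
      have h1 := stepB i hi
      exact d3 o (cb i (by omega)) (ca i (by omega)) _ (t0 i (by omega)).2.1 (t0 i (by omega)).1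
        (t0 i (by omega)).2.2.symm (t0 (i + 1) (by omega)).1
        (h1 ▸ (t0 (i + 1) (by omega)).2.2.symm)
    have all : ∀ i (hi : i ≤ N + 1), ca i hi = ca 0 (by omega) ∧ cb i hi = cb 0 (by omega) := by
      intro i
      induction i with
      | zero => exact fun _ => ⟨rfl, rfl⟩
      | succ i ih =>
        intro hi
        have := ih (by omega)
        exact ⟨(stepA i (by omega)).trans this.1, (stepB i (by omega)).trans this.2⟩
    refine ⟨ca 0 (by omega), cb 0 (by omega), fun i hi => ⟨?_, ?_⟩⟩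
    · have h1 := hca i hi
      rw [(all i hi).1] at h1
      exact (mem_SS _ _ _).1 h1
    · have h1 := hcb i hi
      rw [(all i hi).2] at h1
      exact (mem_SS _ _ _).1 h1

end Pool.Agent.OMF.H21
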